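import Mathlib

/-!
# Geodetic graphs: a criterion
-/

set_option autoImplicit false

namespace Pool.Agent.T2H61.Geo

/-- A graph is geodetic if it is connected and every pair of vertices is joined by exactly one
shortest path. -/
def Geodetic {V : Type*} (G : SimpleGraph V) : Prop :=
  G.Connected ∧ ∀ u v, ∃! p : G.Walk u v, p.IsPath ∧ p.length = G.dist u v

section

variable {V : Type*} {G : SimpleGraph V} {D : V → V → ℕ}

theorem le_length (h0 : ∀ a, D a a = 0) (h1 : ∀ a b c, G.Adj a c → D a b ≤ D c b + 1)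
    {a b : V} (p : G.Walk a b) : D a b ≤ p.length := by
  induction p with
  | nil => rw [h0]; exact Nat.zero_le _
  | cons h p ih =>
    rw [SimpleGraph.Walk.length_cons]
    exact (h1 _ _ _ h).trans (Nat.succ_le_succ ih)

theorem exists_walk (h0 : ∀ a, D a a = 0)
    (h2 : ∀ a b, a ≠ b → ∃ c, G.Adj a c ∧ D c b + 1 = D a b) (n : ℕ) :
    ∀ a b, D a b = n → ∃ p : G.Walk a b, p.length = n := by
  induction n with
  | zero =>
    intro a b h
    by_cases hab : a = b
    · subst hab
      exact ⟨SimpleGraph.Walk.nil, rfl⟩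
    · obtain ⟨c, _, h3⟩ := h2 a b hab
      omega
  | succ n ih =>
    intro a b h
    by_cases hab : a = b
    · subst hab
      rw [h0] at h
      omega
    · obtain ⟨c, h3, h4⟩ := h2 a b hab
      obtain ⟨p, hp⟩ := ih c b (by omega)
      exact ⟨SimpleGraph.Walk.cons h3 p, by rw [SimpleGraph.Walk.length_cons, hp]⟩

theorem walk_unique (h0 : ∀ a, D a a = 0) (h1 : ∀ a b c, G.Adj a c → D a b ≤ D c b + 1)
    (h2 : ∀ a b c c', a ≠ b → G.Adj a c → D c b + 1 = D a b → G.Adj a c' → D c' b + 1 = D a b →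
      c = c') {a b : V} (p : G.Walk a b) :
    ∀ q : G.Walk a b, p.length = D a b → q.length = D a b → p = q := by
  induction p with
  | nil =>
    intro q _ hq
    rw [h0] at hq
    exact (SimpleGraph.Walk.eq_nil_iff_nil.2 (SimpleGraph.Walk.length_eq_zero_iff.1 hq)).symm
  | @cons u v w h p ih =>
    intro q hp hq
    rw [SimpleGraph.Walk.length_cons] at hp
    have huw : u ≠ w := by
      rintro rfl
      rw [h0] at hp
      omega
    cases q with
    | nil => exact absurd rfl huw
    | @cons _ v' _ h' q =>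
      rw [SimpleGraph.Walk.length_cons] at hq
      have e1 := le_length h0 h1 p
      have e2 := le_length h0 h1 q
      have e3 := h1 u w v h
      have e4 := h1 u w v' h'
      have hv : v = v' := h2 u w v v' huw h (by omega) h' (by omega)
      subst hv
      rw [ih q (by omega) (by omega)]

theorem geodetic_of [Nonempty V] (h0 : ∀ a, D a a = 0)
    (h1 : ∀ a b c, G.Adj a c → D a b ≤ D c b + 1)
    (h2 : ∀ a b, a ≠ b → ∃ c, G.Adj a c ∧ D c b + 1 = D a b)
    (h3 : ∀ a b c c', a ≠ b → G.Adj a c → D c b + 1 = D a b → G.Adj a c' → D c' b + 1 = D a b →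
      c = c') : Geodetic G := by
  have hcon : G.Connected := by
    exact ⟨fun a b => ⟨(exists_walk h0 h2 _ a b rfl).choose⟩⟩
  refine ⟨hcon, fun u v => ?_⟩
  have hd : G.dist u v = D u v := by
    apply le_antisymm
    · obtain ⟨p, hp⟩ := exists_walk h0 h2 _ u v rfl
      rw [← hp]
      exact SimpleGraph.dist_le p
    · obtain ⟨p, hp⟩ := hcon.exists_walk_length_eq_dist u v
      rw [← hp]
      exact le_length h0 h1 p
  obtain ⟨p, hp⟩ := hcon.exists_walk_length_eq_dist u v
  refine ⟨p, ⟨p.isPath_of_length_eq_dist hp, hp⟩, fun q hq => ?_⟩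
  exact walk_unique h0 h1 h3 q p (by rw [hq.2, hd]) (by rw [hp, hd])

end

theorem Geodetic.of_iso {V W : Type*} {G : SimpleGraph V} {H : SimpleGraph W} (φ : G ≃g H)
    (h : Geodetic G) : Geodetic H := by
  obtain ⟨hc, hu⟩ := h
  have hc' : H.Connected := (SimpleGraph.Iso.connected_iff φ).1 hc
  refine ⟨hc', fun u v => ?_⟩
  obtain ⟨p, hp⟩ := hc'.exists_walk_length_eq_dist u v
  refine ⟨p, ⟨p.isPath_of_length_eq_dist hp, hp⟩, fun q hq => ?_⟩
  have hdist : G.dist (φ.symm u) (φ.symm v) = H.dist u v := by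
    apply le_antisymm
    · rw [← hp, ← SimpleGraph.Walk.length_map φ.symm.toHom p]
      exact SimpleGraph.dist_le _
    · obtain ⟨r, hr⟩ := hc.exists_walk_length_eq_dist (φ.symm u) (φ.symm v)
      rw [← hr, ← SimpleGraph.Walk.length_map φ.toHom r]
      have := SimpleGraph.dist_le (r.map φ.toHom)
      simpa using this
  have hinj : Function.Injective (SimpleGraph.Walk.map φ.symm.toHom (u := u) (v := v)) :=
    SimpleGraph.Walk.map_injective_of_injective φ.symm.injective u v
  apply hinj
  obtain ⟨r, -, hr⟩ := hu (φ.symm u) (φ.symm v)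
  have h1 := hr (q.map φ.symm.toHom) ⟨SimpleGraph.Walk.isPath_of_length_eq_dist _ (by
    rw [SimpleGraph.Walk.length_map, hq.2]; exact hdist.symm), by
    rw [SimpleGraph.Walk.length_map, hq.2]; exact hdist.symm⟩
  have h2 := hr (p.map φ.symm.toHom) ⟨SimpleGraph.Walk.isPath_of_length_eq_dist _ (by
    rw [SimpleGraph.Walk.length_map, hp]; exact hdist.symm), by
    rw [SimpleGraph.Walk.length_map, hp]; exact hdist.symm⟩
  exact h1.trans h2.symm

end Pool.Agent.T2H61.Geo
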