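import Pool.Agent.T2H61.Geo.Lab

/-!
# The geodetic graph of a graph
-/

set_option autoImplicit false

namespace Pool.Agent.T2H61.Geo

section

variable {n : ℕ} (X : SimpleGraph (Fin n))

/-- the admissible triples -/
def OK (v : Fin n × Fin n × ℕ) : Prop :=
  v.2.2 = 0 ∨ (v.1 = v.2.1 ∧ v.2.2 < 3) ∨ (X.Adj v.1 v.2.1 ∧ v.2.2 = 1)

/-- the vertices -/
def Vx : Type := {v : Fin n × Fin n × ℕ // OK X v}

variable {X}

/-- the label of a vertex -/
def code (v : Vx X) : Lb := (v.1.1, v.1.2.1, v.1.2.2)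

theorem code_inj : Function.Injective (code (X := X)) := by
  intro a b h
  simp only [code, Prod.mk.injEq] at h
  exact Subtype.ext (Prod.ext (Fin.ext h.1) (Prod.ext (Fin.ext h.2.1) h.2.2))

variable (X)

/-- the graph -/
def GG : SimpleGraph (Vx X) where
  Adj a b := AdL (code a) (code b)
  symm := ⟨fun _ _ h => Or.symm h⟩
  loopless := ⟨fun _ h => AdL_ne h rfl⟩

variable {X}

/-- vertices with label zero -/
def bv (X : SimpleGraph (Fin n)) (i j : Fin n) : Vx X := ⟨(i, j, 0), Or.inl rfl⟩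

theorem exists_nxt (a b : Vx X) : ∃ c : Vx X, code c = nxt (code a) (code b) := by
  obtain ⟨⟨i, j, t⟩, ha⟩ := a
  obtain ⟨⟨k, l, s⟩, hb⟩ := b
  simp only [code, nxt]
  split_ifs
  · exact ⟨bv X i j, rfl⟩
  · exact ⟨⟨(k, l, s), hb⟩, rfl⟩
  · exact ⟨bv X i l, rfl⟩
  · exact ⟨bv X i i, rfl⟩
  · exact ⟨bv X i k, rfl⟩
  · exact ⟨bv X j i, rfl⟩
  · exact ⟨bv X i i, rfl⟩

theorem geodetic_GG (hn : 0 < n) : Geodetic (GG X) := by
  haveI : Nonempty (Vx X) := ⟨bv X ⟨0, hn⟩ ⟨0, hn⟩⟩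
  refine geodetic_of (D := fun a b => DL (code a) (code b)) (fun a => DL_self _)
    (fun a b c h => DL_lip _ _ _ h) (fun a b h => ?_) (fun a b c c' h h1 h2 h3 h4 => ?_)
  · obtain ⟨c, hc⟩ := exists_nxt a b
    have h1 := nxt_spec (code a) (code b) (fun e => h (code_inj e))
    rw [← hc] at h1
    exact ⟨c, h1⟩
  · have hne : code a ≠ code b := fun e => h (code_inj e)
    exact code_inj ((nxt_unique _ _ _ hne h1 h2).trans (nxt_unique _ _ _ hne h3 h4).symm)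

end

/-! ### Isomorphisms -/

section

variable {V W : Type*} (G : SimpleGraph V) (H : SimpleGraph W)

/-- `c` is adjacent to `v` and to no other vertex -/
def Leaf (v c : V) : Prop := G.Adj v c ∧ ∀ d, G.Adj c d → d = v

/-- two leaves at `v` -/
def Hub (v : V) : Prop := ∃ c c', c ≠ c' ∧ Leaf G v c ∧ Leaf G v c'

/-- the coded adjacency -/
def EE (u w : V) : Prop :=
  u ≠ w ∧ ∃ a b c, G.Adj u a ∧ G.Adj a b ∧ G.Adj b w ∧ G.Adj a c ∧ c ≠ u ∧ c ≠ b

variable {G H}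

theorem Leaf.map (φ : G ≃g H) {v c : V} (h : Leaf G v c) : Leaf H (φ v) (φ c) := by
  refine ⟨φ.map_adj_iff.2 h.1, fun d hd => ?_⟩
  have h1 : G.Adj c (φ.symm d) := by
    rw [← φ.map_adj_iff, φ.apply_symm_apply]
    exact hd
  rw [← h.2 _ h1, φ.apply_symm_apply]

theorem Hub.map (φ : G ≃g H) {v : V} (h : Hub G v) : Hub H (φ v) := by
  obtain ⟨c, c', h1, h2, h3⟩ := h
  exact ⟨φ c, φ c', fun e => h1 (φ.injective e), h2.map φ, h3.map φ⟩

theorem EE.map (φ : G ≃g H) {u w : V} (h : EE G u w) : EE H (φ u) (φ w) := by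
  obtain ⟨h0, a, b, c, h1, h2, h3, h4, h5, h6⟩ := h
  exact ⟨fun e => h0 (φ.injective e), φ a, φ b, φ c, φ.map_adj_iff.2 h1, φ.map_adj_iff.2 h2,
    φ.map_adj_iff.2 h3, φ.map_adj_iff.2 h4, fun e => h5 (φ.injective e),
    fun e => h6 (φ.injective e)⟩

theorem EE.map_iff (φ : G ≃g H) {u w : V} : EE H (φ u) (φ w) ↔ EE G u w := by
  constructor
  · intro h
    have := h.map φ.symm
    rwa [φ.symm_apply_apply, φ.symm_apply_apply] at this
  · exact fun h => h.map φ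

end

section

variable {n : ℕ} {X : SimpleGraph (Fin n)}

/-- the hubs -/
def hub (X : SimpleGraph (Fin n)) (i : Fin n) : Vx X := bv X i i

theorem hub_inj {i j : Fin n} (h : hub X i = hub X j) : i = j :=
  congrArg (fun v : Vx X => v.1.1) h

theorem adj_iff (a b : Vx X) : (GG X).Adj a b ↔ AdL (code a) (code b) := Iff.rfl

/-- the pendant vertices of the hubs -/
def hp (X : SimpleGraph (Fin n)) (i : Fin n) (t : ℕ) (ht : t < 3) : Vx X :=
  ⟨(i, i, t), Or.inr (Or.inl ⟨rfl, ht⟩)⟩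

theorem leaf_of (v c : Vx X) (h : (GG X).Adj v c) (hc : c.1.2.2 ≠ 0) : Leaf (GG X) v c := by
  refine ⟨h, fun d hd => ?_⟩
  apply code_inj
  have h1 := AdL_pend hd hc
  have h2 := AdL_pend (AdL_symm h) hc
  rw [h1, h2]

theorem hub_hub (i : Fin n) : Hub (GG X) (hub X i) := by
  refine ⟨hp X i 1 (by norm_num), hp X i 2 (by norm_num), fun h => ?_, leaf_of _ _ ?_ ?_,
    leaf_of _ _ ?_ ?_⟩
  · have := congrArg (fun v : Vx X => v.1.2.2) h
    simp [hp] at this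
  · exact Or.inl (Or.inr (Or.inr ⟨rfl, rfl, rfl, by simp [code, hp]⟩))
  · simp [hp]
  · exact Or.inl (Or.inr (Or.inr ⟨rfl, rfl, rfl, by simp [code, hp]⟩))
  · simp [hp]

theorem code_hub (i : Fin n) : code (hub X i) = ((i : ℕ), (i : ℕ), 0) := rfl

/-- leaves are pendant vertices -/
theorem pend_of_leaf {v c : Vx X} (h : Leaf (GG X) v c) : c.1.2.2 ≠ 0 := by
  obtain ⟨h1, h2⟩ := h
  intro hc
  obtain ⟨⟨i, j, t⟩, hok⟩ := c
  simp only at hc
  subst hc
  by_cases hij : i = j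
  · subst hij
    have a1 := h2 (hp X i 1 (by norm_num)) (Or.inl (Or.inr (Or.inr ⟨rfl, rfl, rfl, by simp [code, hp]⟩)))
    have a2 := h2 (hp X i 2 (by norm_num)) (Or.inl (Or.inr (Or.inr ⟨rfl, rfl, rfl, by simp [code, hp]⟩)))
    have := congrArg (fun v : Vx X => v.1.2.2) (a1.trans a2.symm)
    simp [hp] at this
  · have a1 := h2 (bv X i i) (Or.inr (Or.inl ⟨rfl, rfl, rfl, rfl, fun e => hij (Fin.ext e).symm⟩))
    have a2 := h2 (bv X j i) (Or.inl (Or.inr (Or.inl ⟨rfl, rfl, fun e => hij (Fin.ext e), rfl, rfl⟩)))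
    have := congrArg (fun v : Vx X => v.1.1) (a1.trans a2.symm)
    exact hij this

theorem hub_of_hub {v : Vx X} (h : Hub (GG X) v) : ∃ i, v = hub X i := by
  obtain ⟨c, c', hne, h1, h2⟩ := h
  have p1 := pend_of_leaf h1
  have p2 := pend_of_leaf h2
  have q1 := AdL_pend (AdL_symm h1.1) p1
  have q2 := AdL_pend (AdL_symm h2.1) p2
  obtain ⟨⟨i, j, t⟩, hv⟩ := v
  obtain ⟨⟨k, l, s⟩, hc⟩ := c
  obtain ⟨⟨k', l', s'⟩, hc'⟩ := c'
  simp only [code, Prod.mk.injEq, Fin.val_inj] at q1 q2 p1 p2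
  obtain ⟨rfl, rfl, rfl⟩ := q1
  obtain ⟨rfl, rfl, -⟩ := q2
  by_cases hij : i = j
  · subst hij
    exact ⟨i, rfl⟩
  · exfalso
    apply hne
    rcases hc with hc | hc | hc
    · exact absurd hc p1
    · exact absurd hc.1 hij
    · rcases hc' with hc' | hc' | hc'
      · exact absurd hc' p2
      · exact absurd hc'.1 hij
      · apply Subtype.ext
        show (i, j, s) = (i, j, s')
        have e1 : s = 1 := hc.2
        have e2 : s' = 1 := hc'.2
        rw [e1, e2]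

theorem EE_hub (i j : Fin n) : EE (GG X) (hub X i) (hub X j) ↔ X.Adj i j := by
  constructor
  · rintro ⟨hij, ⟨⟨a1, a2, a3⟩, ha⟩, ⟨⟨b1, b2, b3⟩, hb⟩, ⟨⟨c1, c2, c3⟩, hc⟩, h1, h2, h3, h4, h5, h6⟩
    have hij' : i ≠ j := fun e => hij (by rw [e])
    have h5' : ¬ (c1 = i ∧ c2 = i ∧ c3 = 0) := by
      rintro ⟨rfl, rfl, rfl⟩
      exact h5 rfl
    have h6' : ¬ (c1 = b1 ∧ c2 = b2 ∧ c3 = b3) := by
      rintro ⟨rfl, rfl, rfl⟩
      exact h6 rfl
    simp only [GG, AdL, Rel, code, hub, bv, Fin.ext_iff, ne_eq] at h1 h2 h3 h4 h5' h6' hij'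
    have e1 : (c1 : ℕ) = i ∧ (c2 : ℕ) = j ∧ c3 ≠ 0 := by omega
    have e2 : c1 = i := Fin.ext e1.1
    have e3 : c2 = j := Fin.ext e1.2.1
    subst e2 e3
    rcases hc with hc | hc | hc
    · exact absurd hc e1.2.2
    · exact absurd (congrArg Fin.val hc.1) hij'
    · exact hc.1
  · intro h
    refine ⟨fun e => h.ne (hub_inj e), bv X i j, bv X j i, ⟨(i, j, 1), Or.inr (Or.inr ⟨h, rfl⟩)⟩,
      Or.inl (Or.inl ⟨rfl, rfl, rfl, rfl, fun e => h.ne (Fin.ext e).symm⟩),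
      Or.inl (Or.inr (Or.inl ⟨rfl, rfl, fun e => h.ne (Fin.ext e), rfl, rfl⟩)),
      Or.inr (Or.inl ⟨rfl, rfl, rfl, rfl, fun e => h.ne (Fin.ext e)⟩),
      Or.inl (Or.inr (Or.inr ⟨rfl, rfl, rfl, one_ne_zero⟩)), fun e => ?_, fun e => ?_⟩
    · exact one_ne_zero (congrArg (fun v : Vx X => v.1.2.2) e)
    · exact one_ne_zero (congrArg (fun v : Vx X => v.1.2.2) e)

end

/-- Isomorphism of graphs and of their geodetic graphs. -/
theorem iso_iff {n m : ℕ} (X : SimpleGraph (Fin n)) (Y : SimpleGraph (Fin m)) :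
    Nonempty (X ≃g Y) ↔ Nonempty (GG X ≃g GG Y) := by
  constructor
  · rintro ⟨φ⟩
    have hok : ∀ v : Fin n × Fin n × ℕ, OK X v ↔ OK Y (φ v.1, φ v.2.1, v.2.2) := by
      intro v
      unfold OK
      simp only [φ.injective.eq_iff, φ.map_adj_iff]
    refine ⟨⟨⟨fun v => ⟨(φ v.1.1, φ v.1.2.1, v.1.2.2), (hok _).1 v.2⟩,
      fun w => ⟨(φ.symm w.1.1, φ.symm w.1.2.1, w.1.2.2), (hok _).2 (by
        simpa using w.2)⟩, fun v => ?_, fun w => ?_⟩, fun {a b} => ?_⟩⟩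
    · apply Subtype.ext
      simp
    · apply Subtype.ext
      simp
    · show AdL _ _ ↔ AdL _ _
      simp only [AdL, Rel, code, Equiv.coe_fn_mk, ne_eq, Fin.val_inj, φ.injective.eq_iff]
  · rintro ⟨ψ⟩
    have h1 : ∀ i, ∃ j, ψ (hub X i) = hub Y j := fun i => hub_of_hub ((hub_hub i).map ψ)
    have h2 : ∀ j, ∃ i, ψ.symm (hub Y j) = hub X i := fun j => hub_of_hub ((hub_hub j).map ψ.symm)
    choose f hf using h1
    choose g hg using h2
    refine ⟨⟨⟨f, g, fun i => ?_, fun j => ?_⟩, fun {i j} => ?_⟩⟩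
    · apply hub_inj (X := X)
      rw [← hg, ← hf, ψ.symm_apply_apply]
    · apply hub_inj (X := Y)
      rw [← hf, ← hg, ψ.apply_symm_apply]
    · show Y.Adj (f i) (f j) ↔ X.Adj i j
      rw [← EE_hub, ← EE_hub, ← hf, ← hf]
      exact EE.map_iff ψ

end Pool.Agent.T2H61.Geo
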