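import Pool.Agent.T2H61.Geo.Base

/-!
# The labels: distances in the complete graph with all edges subdivided twice

The label `(i, i, 0)` is the vertex `i` of the complete graph, `(i, j, 0)` is the vertex on the edge
`i j` which is adjacent to `i`, and the `(i, j, t)`, `t > 0`, are pendant vertices attached to
`(i, j, 0)`.
-/

set_option autoImplicit false

namespace Pool.Agent.T2H61.Geo

/-- labels -/
abbrev Lb := ℕ × ℕ × ℕ

/-- the relation: a vertex and a vertex on an edge; the two vertices on an edge; pendant vertices -/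
def Rel (a b : Lb) : Prop :=
  (a.1 = b.1 ∧ a.2.2 = 0 ∧ b.2.2 = 0 ∧ a.1 = a.2.1 ∧ b.2.1 ≠ a.1) ∨
  (a.2.2 = 0 ∧ b.2.2 = 0 ∧ a.1 ≠ a.2.1 ∧ b.1 = a.2.1 ∧ b.2.1 = a.1) ∨
  (a.1 = b.1 ∧ a.2.1 = b.2.1 ∧ a.2.2 = 0 ∧ b.2.2 ≠ 0)

/-- adjacency of labels -/
def AdL (a b : Lb) : Prop := Rel a b ∨ Rel b a

/-- distances in a star with centre `i` -/
def sd (i x y : ℕ) : ℕ := if x = y then 0 else if x = i then 1 else if y = i then 1 else 2

/-- distances between the labels `(i, j, 0)` and `(k, l, 0)` -/
def D0 (i j k l : ℕ) : ℕ :=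
  if i = k then sd i j l else if j = l ∧ j ≠ i ∧ j ≠ k then 4 else sd i j k + 1 + sd k l i

/-- zero or one -/
def pos (t : ℕ) : ℕ := if t = 0 then 0 else 1

/-- distances between labels -/
def DL (a b : Lb) : ℕ :=
  if a = b then 0 else pos a.2.2 + pos b.2.2 + D0 a.1 a.2.1 b.1 b.2.1

/-- the next label on the way to `b` -/
def nxt (a b : Lb) : Lb :=
  if a.2.2 ≠ 0 then (a.1, a.2.1, 0)
  else if a.1 = b.1 ∧ a.2.1 = b.2.1 then b
  else if a.1 = b.1 then (if a.2.1 = a.1 then (a.1, b.2.1, 0) else (a.1, a.1, 0))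
  else if a.2.1 = a.1 then (a.1, b.1, 0)
  else if a.2.1 = b.1 ∨ a.2.1 = b.2.1 then (a.2.1, a.1, 0)
  else (a.1, a.1, 0)

theorem DL_self (a : Lb) : DL a a = 0 := by
  unfold DL
  rw [if_pos rfl]

theorem d0_hub (i j k l : ℕ) (h : j ≠ i) :
    D0 i i k l ≤ D0 i j k l + 1 ∧ D0 i j k l ≤ D0 i i k l + 1 := by
  simp only [D0, sd]
  split_ifs <;> omega

theorem d0_mid (i j k l : ℕ) : D0 i j k l ≤ D0 j i k l + 1 := by
  simp only [D0, sd]
  split_ifs <;> omega

theorem d0_self (i j : ℕ) : D0 i j i j = 0 := by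
  simp [D0, sd]

theorem d0_pos (i j k l : ℕ) (h : ¬ (i = k ∧ j = l)) : 0 < D0 i j k l := by
  simp only [D0, sd]
  split_ifs <;> omega

/-- the base distance is Lipschitz -/
theorem d0_lip {a c : Lb} (h : AdL a c) (ha : a.2.2 = 0) (hc : c.2.2 = 0) (k l : ℕ) :
    D0 a.1 a.2.1 k l ≤ D0 c.1 c.2.1 k l + 1 := by
  obtain ⟨i, j, t⟩ := a
  obtain ⟨p, q, r⟩ := c
  simp only [AdL, Rel] at h ha hc ⊢
  subst ha hc
  rcases h with (⟨h1, h2, h3, h4, h5⟩ | ⟨h1, h2, h3, h4, h5⟩ | ⟨h1, h2, h3, h4⟩) |
    (⟨h1, h2, h3, h4, h5⟩ | ⟨h1, h2, h3, h4, h5⟩ | ⟨h1, h2, h3, h4⟩)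
  · subst h1 h4
    exact (d0_hub _ _ k l h5).1
  · subst h4 h5
    exact d0_mid _ _ k l
  · exact absurd rfl h4
  · subst h1 h4
    exact (d0_hub _ _ k l h5).2
  · subst h4 h5
    exact d0_mid _ _ k l
  · exact absurd rfl h4

theorem DL_base (a b : Lb) (ha : a.2.2 = 0) (hb : b.2.2 = 0) :
    DL a b = D0 a.1 a.2.1 b.1 b.2.1 := by
  obtain ⟨i, j, t⟩ := a
  obtain ⟨k, l, s⟩ := b
  simp only at ha hb
  subst ha hb
  unfold DL
  split_ifs with h
  · simp only [Prod.mk.injEq, and_true] at h
    obtain ⟨rfl, rfl⟩ := h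
    exact (d0_self _ _).symm
  · simp [pos]

/-- the relation for pendant vertices -/
theorem AdL_pend {a c : Lb} (h : AdL a c) (ha : a.2.2 ≠ 0) : c = (a.1, a.2.1, 0) := by
  obtain ⟨i, j, t⟩ := a
  obtain ⟨p, q, r⟩ := c
  simp only [AdL, Rel, Prod.mk.injEq] at h ha ⊢
  omega

theorem AdL_symm {a c : Lb} (h : AdL a c) : AdL c a := Or.symm h

theorem AdL_ne {a c : Lb} (h : AdL a c) : a ≠ c := by
  rintro rfl
  obtain ⟨i, j, t⟩ := a
  simp only [AdL, Rel] at h
  omega

/-- a label is a base label or a pendant label -/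
theorem DL_eq (a b : Lb) (h : a ≠ b) : DL a b = pos a.2.2 + pos b.2.2 + D0 a.1 a.2.1 b.1 b.2.1 := by
  unfold DL
  rw [if_neg h]

theorem DL_le (a b : Lb) : DL a b ≤ pos a.2.2 + pos b.2.2 + D0 a.1 a.2.1 b.1 b.2.1 := by
  unfold DL
  split_ifs <;> omega

theorem DL_lip (a b c : Lb) (h : AdL a c) : DL a b ≤ DL c b + 1 := by
  by_cases ha : a.2.2 = 0
  · by_cases hc : c.2.2 = 0
    · by_cases hcb : c = b
      · subst hcb
        rw [DL_self, DL_base a c ha hc]
        have := d0_lip h ha hc c.1 c.2.1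
        rw [d0_self] at this
        exact this
      · rw [DL_eq c b hcb]
        have h1 := DL_le a b
        have h2 := d0_lip h ha hc b.1 b.2.1
        rw [ha] at h1
        rw [hc]
        omega
    · have h1 := AdL_pend (AdL_symm h) hc
      have h2 := DL_le a b
      subst h1
      by_cases hcb : c = b
      · subst hcb
        rw [DL_self]
        simp only [d0_self, pos] at h2
        split_ifs at h2 <;> omega
      · rw [DL_eq c b hcb]
        simp only [pos] at h2 ⊢
        split_ifs at h2 ⊢ <;> omega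
  · have h1 := AdL_pend h ha
    subst h1
    by_cases hcb : (a.1, a.2.1, 0) = b
    · subst hcb
      have h2 := DL_le a (a.1, a.2.1, 0)
      rw [DL_self]
      simp only [d0_self, pos] at h2
      split_ifs at h2 <;> omega
    · rw [DL_eq _ b hcb]
      have h2 := DL_le a b
      simp only [pos] at h2 ⊢
      split_ifs at h2 ⊢ <;> omega

/-- the next label is adjacent and nearer -/
theorem nxt_spec (a b : Lb) (hab : a ≠ b) : AdL a (nxt a b) ∧ DL (nxt a b) b + 1 = DL a b := by
  obtain ⟨i, j, t⟩ := a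
  obtain ⟨k, l, s⟩ := b
  rw [DL_eq _ _ hab]
  by_cases ht : t = 0
  · subst ht
    by_cases h1 : i = k ∧ j = l
    · obtain ⟨rfl, rfl⟩ := h1
      have hs : s ≠ 0 := by
        rintro rfl
        exact hab rfl
      have e : nxt (i, j, 0) (i, j, s) = (i, j, s) := by simp [nxt]
      rw [e, DL_self]
      refine ⟨Or.inl (Or.inr (Or.inr ⟨rfl, rfl, rfl, hs⟩)), ?_⟩
      simp [pos, hs, d0_self]
    · have h2 : ∀ c : Lb, c.2.2 = 0 → D0 c.1 c.2.1 k l + 1 = D0 i j k l →
          DL c (k, l, s) + 1 = pos 0 + pos s + D0 i j k l := by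
        intro c hc h
        by_cases hcb : c = (k, l, s)
        · subst hcb
          simp only at hc h
          subst hc
          rw [DL_self]
          rw [d0_self] at h
          have e0 : pos 0 = 0 := rfl
          omega
        · rw [DL_eq _ _ hcb, hc]
          show pos 0 + pos s + D0 c.1 c.2.1 k l + 1 = _
          omega
      simp only [nxt]
      rw [if_neg (by simp), if_neg h1]
      by_cases h3 : i = k
      · subst h3
        rw [if_pos rfl]
        by_cases h4 : j = i
        · subst h4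
          rw [if_pos rfl]
          have h5 : l ≠ j := fun h => h1 ⟨rfl, h.symm⟩
          refine ⟨Or.inl (Or.inl ⟨rfl, rfl, rfl, rfl, h5⟩), h2 _ rfl ?_⟩
          simp only [D0, sd]
          split_ifs <;> omega
        · rw [if_neg h4]
          refine ⟨Or.inr (Or.inl ⟨rfl, rfl, rfl, rfl, h4⟩), h2 _ rfl ?_⟩
          simp only [D0, sd]
          split_ifs <;> omega
      · rw [if_neg h3]
        by_cases h4 : j = i
        · subst h4
          rw [if_pos rfl]
          refine ⟨Or.inl (Or.inl ⟨rfl, rfl, rfl, rfl, fun h => h3 h.symm⟩), h2 _ rfl ?_⟩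
          simp only [D0, sd]
          split_ifs <;> omega
        · rw [if_neg h4]
          by_cases h5 : j = k ∨ j = l
          · rw [if_pos h5]
            refine ⟨Or.inl (Or.inr (Or.inl ⟨rfl, rfl, fun h => h4 h.symm, rfl, rfl⟩)), h2 _ rfl ?_⟩
            simp only [D0, sd]
            split_ifs <;> omega
          · rw [if_neg h5]
            refine ⟨Or.inr (Or.inl ⟨rfl, rfl, rfl, rfl, h4⟩), h2 _ rfl ?_⟩
            simp only [D0, sd]
            split_ifs <;> omega
  · have e : nxt (i, j, t) (k, l, s) = (i, j, 0) := by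
      simp only [nxt]
      rw [if_pos ht]
    rw [e]
    refine ⟨Or.inr (Or.inr (Or.inr ⟨rfl, rfl, rfl, ht⟩)), ?_⟩
    by_cases hcb : (i, j, 0) = (k, l, s)
    · simp only [Prod.mk.injEq] at hcb
      obtain ⟨rfl, rfl, rfl⟩ := hcb
      rw [DL_self, d0_self]
      simp [pos, ht]
    · rw [DL_eq _ _ hcb]
      simp only [pos, if_neg ht, if_pos]
      omega

/-- the nearer neighbour is unique -/
theorem nxt_unique (a b c : Lb) (hab : a ≠ b) (h : AdL a c) (hc : DL c b + 1 = DL a b) :
    c = nxt a b := by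
  obtain ⟨i, j, t⟩ := a
  obtain ⟨k, l, s⟩ := b
  rw [DL_eq _ _ hab] at hc
  by_cases ht : t = 0
  · subst ht
    by_cases hc0 : c.2.2 = 0
    · have h2 : D0 c.1 c.2.1 k l + 1 = D0 i j k l := by
        by_cases hcb : c = (k, l, s)
        · subst hcb
          simp only at hc0
          subst hc0
          rw [DL_self] at hc
          rw [d0_self]
          simp only [pos] at hc
          omega
        · rw [DL_eq _ _ hcb, hc0] at hc
          simp only [pos] at hc
          omega
      obtain ⟨p, q, r⟩ := c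
      simp only at hc0 h2
      subst hc0
      have h1 : ¬ (i = k ∧ j = l) := by
        rintro ⟨rfl, rfl⟩
        rw [d0_self] at h2
        omega
      simp only [nxt]
      rw [if_neg (by simp), if_neg h1]
      simp only [AdL, Rel, ne_eq, not_true_eq_false, and_false, or_false, true_and] at h
      rcases h with (⟨h3, h4, h5⟩ | ⟨h3, h4, h5⟩) | (⟨h3, h4, h5⟩ | ⟨h3, h4, h5⟩)
      · subst h3 h4
        clear hc
        simp only [D0, sd] at h2
        split_ifs at h2 ⊢ <;> simp only [Prod.mk.injEq, true_and, and_true] <;> omega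
      · subst h4 h5
        simp only [D0, sd] at h2
        split_ifs at h2 ⊢ <;> simp only [Prod.mk.injEq, true_and, and_true] <;> omega
      · subst h3 h4
        simp only [D0, sd] at h2
        split_ifs at h2 ⊢ <;> simp only [Prod.mk.injEq, true_and, and_true] <;> omega
      · subst h4 h5
        simp only [D0, sd] at h2
        split_ifs at h2 ⊢ <;> simp only [Prod.mk.injEq, true_and, and_true] <;> omega
    · have h1 := AdL_pend (AdL_symm h) hc0
      simp only [Prod.mk.injEq, and_true] at h1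
      obtain ⟨h3, h4⟩ := h1
      by_cases hcb : c = (k, l, s)
      · subst hcb
        simp only at h3 h4
        subst h3 h4
        simp [nxt]
      · rw [DL_eq _ _ hcb, ← h3, ← h4] at hc
        simp only [pos, if_neg hc0] at hc
        split_ifs at hc <;> omega
  · have e : nxt (i, j, t) (k, l, s) = (i, j, 0) := by
      simp only [nxt]
      rw [if_pos ht]
    rw [e]
    exact AdL_pend h ht

end Pool.Agent.T2H61.Geo
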