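import Pool.Agent.T2H61.Geo.Graph
import Pool.Agent.H671R2.PolyAuto
import Pool.Agent.NPC.Dec
import Pool.Agent.NPC.Classes

/-!
# The reduction
-/

set_option autoImplicit false

namespace Pool.Agent.T2H61.Geo

open Pool.Agent.NPC Pool.Agent.NPC.R671

/-- The graph isomorphism problem: the input consists of the adjacency matrices of two finite
graphs, and the question is whether the graphs are isomorphic. -/
def GraphIso (p : List (List Bool) × List (List Bool)) : Prop :=
  ∃ (n m : ℕ) (X : SimpleGraph (Fin n)) (Y : SimpleGraph (Fin m)),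
    adjMatrix X = p.1 ∧ adjMatrix Y = p.2 ∧ Nonempty (X ≃g Y)

/-- entries of a matrix -/
def ent (M : List (List Bool)) (i j : ℕ) : Bool := (M.getD i []).getD j false

/-- admissible labels -/
def okB (M : List (List Bool)) (q : Lb) : Bool :=
  decide (q.2.2 = 0) || ((decide (q.1 = q.2.1)) || (ent M q.1 q.2.1 && decide (q.2.2 = 1)))

/-- the list of the vertices -/
def verts (M : List (List Bool)) : List Lb :=
  (List.range M.length ×ˢ (List.range M.length ×ˢ List.range 3)).filter (fun q => okB M q)

/-- the relation -/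
def relB (a b : Lb) : Bool :=
  (decide (a.1 = b.1) && (decide (a.2.2 = 0) && (decide (b.2.2 = 0) && (decide (a.1 = a.2.1) &&
    !decide (b.2.1 = a.1))))) ||
  ((decide (a.2.2 = 0) && (decide (b.2.2 = 0) && (!decide (a.1 = a.2.1) && (decide (b.1 = a.2.1) &&
    decide (b.2.1 = a.1))))) ||
  (decide (a.1 = b.1) && (decide (a.2.1 = b.2.1) && (decide (a.2.2 = 0) && !decide (b.2.2 = 0)))))

/-- adjacency -/
def adB (a b : Lb) : Bool := relB a b || relB b a

/-- the output matrix -/
def out (M : List (List Bool)) : List (List Bool) :=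
  (verts M).map (fun u => (verts M).map (fun w => adB u w))

theorem relB_iff (a b : Lb) : relB a b = true ↔ Rel a b := by
  unfold relB Rel
  simp only [Bool.or_eq_true, Bool.and_eq_true, decide_eq_true_eq, Bool.not_eq_true',
    decide_eq_false_iff_not, ne_eq]

theorem adB_iff (a b : Lb) : adB a b = true ↔ AdL a b := by
  unfold adB AdL
  rw [Bool.or_eq_true, relB_iff, relB_iff]

theorem adB_symm (a b : Lb) : adB a b = adB b a := Bool.or_comm _ _

theorem adB_irrefl (a : Lb) : adB a a = false := by
  rw [Bool.eq_false_iff]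
  intro h
  exact AdL_ne ((adB_iff a a).1 h) rfl

theorem length_adjMatrix {n : ℕ} (X : SimpleGraph (Fin n)) : (adjMatrix X).length = n := by
  simp [adjMatrix]

theorem ent_adjMatrix {n : ℕ} (X : SimpleGraph (Fin n)) (i j : Fin n) :
    ent (adjMatrix X) i j = true ↔ X.Adj i j := by
  unfold ent adjMatrix
  simp

theorem mem_verts {n : ℕ} (X : SimpleGraph (Fin n)) (z : Lb) :
    z ∈ verts (adjMatrix X) ↔ ∃ a : Vx X, code a = z := by
  unfold verts
  rw [length_adjMatrix]
  obtain ⟨i, j, t⟩ := z
  simp only [List.mem_filter, List.mem_product, List.mem_range]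
  constructor
  · rintro ⟨⟨hi, hj, ht⟩, hok⟩
    refine ⟨⟨(⟨i, hi⟩, ⟨j, hj⟩, t), ?_⟩, rfl⟩
    unfold okB at hok
    simp only [Bool.or_eq_true, Bool.and_eq_true, decide_eq_true_eq] at hok
    rcases hok with h | h | ⟨h, h'⟩
    · exact Or.inl h
    · exact Or.inr (Or.inl ⟨Fin.ext h, ht⟩)
    · exact Or.inr (Or.inr ⟨(ent_adjMatrix X ⟨i, hi⟩ ⟨j, hj⟩).1 h, h'⟩)
  · rintro ⟨⟨⟨i', j', t'⟩, hok⟩, h⟩
    simp only [code, Prod.mk.injEq] at h
    obtain ⟨rfl, rfl, rfl⟩ := h
    unfold okB
    simp only [Bool.or_eq_true, Bool.and_eq_true, decide_eq_true_eq]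
    rcases hok with h | ⟨h, h'⟩ | ⟨h, h'⟩
    · simp only at h
      subst h
      exact ⟨⟨i'.2, j'.2, by norm_num⟩, Or.inl rfl⟩
    · exact ⟨⟨i'.2, j'.2, h'⟩, Or.inr (Or.inl (congrArg Fin.val h))⟩
    · simp only at h'
      subst h'
      exact ⟨⟨i'.2, j'.2, by norm_num⟩, Or.inr (Or.inr ⟨(ent_adjMatrix X _ _).2 h, rfl⟩)⟩

theorem nodup_verts (M : List (List Bool)) : (verts M).Nodup := by
  unfold verts
  exact (List.nodup_range.product (List.nodup_range.product List.nodup_range)).filter _

/-- The output is the adjacency matrix of a graph isomorphic to the construction. -/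
theorem out_eq {n : ℕ} (X : SimpleGraph (Fin n)) : ∃ (N : ℕ) (X' : SimpleGraph (Fin N)),
    adjMatrix X' = out (adjMatrix X) ∧ Nonempty (X' ≃g GG X) := by
  obtain ⟨e, he⟩ := exists_equiv (verts (adjMatrix X)) (nodup_verts _) (code (X := X))
    code_inj (mem_verts X)
  refine ⟨_, listGraph (verts (adjMatrix X)) adB adB_symm adB_irrefl, ?_, ⟨⟨e, ?_⟩⟩⟩
  · rw [adjMatrix_listGraph]
    rfl
  · intro a b
    show AdL _ _ ↔ adB _ _ = true
    rw [adB_iff, he, he]

/-! ### Valid inputs -/

/-- validity of an adjacency matrix -/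
def valid (M : List (List Bool)) : Bool :=
  M.all (fun r => decide (r.length = M.length)) &&
  ((List.range M.length).all (fun i => (List.range M.length).all
    (fun j => decide (ent M i j = ent M j i))) &&
  (List.range M.length).all (fun i => !(ent M i i)))

theorem valid_iff (M : List (List Bool)) :
    valid M = true ↔ ∃ (n : ℕ) (X : SimpleGraph (Fin n)), adjMatrix X = M := by
  constructor
  · intro h
    simp only [valid, Bool.and_eq_true, List.all_eq_true, List.mem_range, decide_eq_true_eq,
      Bool.not_eq_true'] at h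
    obtain ⟨h1, h2, h3⟩ := h
    refine ⟨M.length, ⟨fun i j => ent M i j = true, ⟨fun i j hij => ?_⟩, ⟨fun i hi => ?_⟩⟩, ?_⟩
    · show ent M j i = true
      rw [← h2 i i.2 j j.2]; exact hij
    · rw [h3 i i.2] at hi
      exact absurd hi (by simp)
    · unfold adjMatrix
      apply List.ext_getElem
      · simp
      · intro i hi hi'
        have hlen : (M[i]).length = M.length := h1 _ (List.getElem_mem _)
        apply List.ext_getElem
        · simp [hlen]
        · intro j hj hj'
          simp only [List.getElem_ofFn]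
          have h4 : ent M i j = (M[i])[j] := by
            unfold ent
            rw [List.getD_eq_getElem _ _ hi', List.getD_eq_getElem _ _ hj']
          rw [← h4]
          exact Bool.eq_iff_iff.2 ⟨fun h => @of_decide_eq_true _ (Classical.propDecidable _) h,
            fun h => @decide_eq_true _ (Classical.propDecidable _) h⟩
  · rintro ⟨n, X, rfl⟩
    simp only [valid, Bool.and_eq_true, List.all_eq_true, List.mem_range, decide_eq_true_eq,
      Bool.not_eq_true', length_adjMatrix]
    refine ⟨?_, ?_, ?_⟩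
    · intro r hr
      unfold adjMatrix at hr
      rw [List.mem_ofFn] at hr
      obtain ⟨i, rfl⟩ := hr
      simp
    · intro i hi j hj
      have h1 := ent_adjMatrix X ⟨i, hi⟩ ⟨j, hj⟩
      have h2 := ent_adjMatrix X ⟨j, hj⟩ ⟨i, hi⟩
      rw [X.adj_comm] at h1
      exact Bool.eq_iff_iff.2 (h1.trans h2.symm)
    · intro i hi
      have h1 := ent_adjMatrix X ⟨i, hi⟩ ⟨i, hi⟩
      rw [Bool.eq_false_iff]
      intro h2
      exact (h1.1 h2).ne rfl

/-- the reduction -/
def red (p : List (List Bool) × List (List Bool)) : List (List Bool) × List (List Bool) :=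
  if (valid p.1 = true ∧ valid p.2 = true) ∧ p.1.length = p.2.length then
    (if p.1.length = 0 then ([[false]], [[false]]) else (out p.1, out p.2))
  else ([[false]], [[false, true], [true, false]])

/-- complete graphs are geodetic -/
theorem geodetic_top {V : Type*} [Nonempty V] : Geodetic (⊤ : SimpleGraph V) := by
  classical
  refine geodetic_of (D := fun a b => if a = b then 0 else 1) (fun a => if_pos rfl)
    (fun a b c _ => ?_) (fun a b h => ⟨b, h, by simp [h]⟩) (fun a b c c' h h1 h2 h3 h4 => ?_)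
  · split_ifs <;> omega
  · simp only [h, if_false] at h2 h4
    split_ifs at h2 h4 with h5 h6
    rw [h5, h6]
    all_goals omega

theorem mat_one : adjMatrix (⊤ : SimpleGraph (Fin 1)) = [[false]] := by
  simp [adjMatrix]

theorem mat_two : adjMatrix (⊤ : SimpleGraph (Fin 2)) = [[false, true], [true, false]] := by
  simp [adjMatrix]

theorem graphIso_bits {n m : ℕ} (X : SimpleGraph (Fin n)) (Y : SimpleGraph (Fin m)) :
    GraphIso (adjMatrix X, adjMatrix Y) ↔ Nonempty (X ≃g Y) := by
  constructor
  · rintro ⟨n', m', X₁, Y₁, e1, e2, h⟩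
    have hn' : n' = n := by
      rw [← length_adjMatrix X₁, e1, length_adjMatrix]
    have hm' : m' = m := by
      rw [← length_adjMatrix Y₁, e2, length_adjMatrix]
    subst hn'
    subst hm'
    rw [adjMatrix_inj e1, adjMatrix_inj e2] at h
    exact h
  · intro h
    exact ⟨n, m, X, Y, rfl, rfl, h⟩

theorem not_iso_small : ¬ Nonempty ((⊤ : SimpleGraph (Fin 1)) ≃g (⊤ : SimpleGraph (Fin 2))) := by
  rintro ⟨φ⟩
  have := Fintype.card_congr φ.toEquiv
  simp at this

theorem red_spec (p : List (List Bool) × List (List Bool)) :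
    ∃ (N M : ℕ) (X' : SimpleGraph (Fin N)) (Y' : SimpleGraph (Fin M)),
      red p = (adjMatrix X', adjMatrix Y') ∧ Geodetic X' ∧ Geodetic Y' ∧
        (GraphIso p ↔ Nonempty (X' ≃g Y')) := by
  by_cases h : (valid p.1 = true ∧ valid p.2 = true) ∧ p.1.length = p.2.length
  · obtain ⟨p1, p2⟩ := p
    obtain ⟨⟨h1, h2⟩, h3⟩ := h
    rw [valid_iff] at h1 h2
    obtain ⟨n, X, rfl⟩ := h1
    obtain ⟨m, Y, rfl⟩ := h2
    rw [length_adjMatrix, length_adjMatrix] at h3
    subst h3
    have hcond : (valid (adjMatrix X) = true ∧ valid (adjMatrix Y) = true) ∧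
        (adjMatrix X).length = (adjMatrix Y).length :=
      ⟨⟨(valid_iff _).2 ⟨n, X, rfl⟩, (valid_iff _).2 ⟨n, Y, rfl⟩⟩, by
        rw [length_adjMatrix, length_adjMatrix]⟩
    rw [graphIso_bits]
    unfold red
    rw [if_pos hcond, length_adjMatrix]
    by_cases hn : n = 0
    · subst hn
      rw [if_pos rfl]
      refine ⟨1, 1, ⊤, ⊤, by rw [mat_one], geodetic_top, geodetic_top, ?_⟩
      refine ⟨fun _ => ⟨SimpleGraph.Iso.refl⟩, fun _ => ?_⟩
      have hXY : X = Y := by
        ext i
        exact i.elim0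
      rw [hXY]
      exact ⟨SimpleGraph.Iso.refl⟩
    · rw [if_neg hn]
      obtain ⟨N, X', hX', ⟨φ⟩⟩ := out_eq X
      obtain ⟨M, Y', hY', ⟨ψ⟩⟩ := out_eq Y
      refine ⟨N, M, X', Y', by rw [hX', hY'], (geodetic_GG (Nat.pos_of_ne_zero hn)).of_iso φ.symm,
        (geodetic_GG (Nat.pos_of_ne_zero hn)).of_iso ψ.symm, ?_⟩
      rw [iso_iff X Y]
      constructor
      · rintro ⟨χ⟩
        exact ⟨φ.trans (χ.trans ψ.symm)⟩
      · rintro ⟨χ⟩
        exact ⟨φ.symm.trans (χ.trans ψ)⟩
  · refine ⟨1, 2, ⊤, ⊤, ?_, geodetic_top, geodetic_top, ?_⟩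
    · unfold red
      rw [if_neg h, mat_one, mat_two]
    · refine iff_of_false ?_ not_iso_small
      rintro ⟨n, m, X, Y, h1, h2, ⟨φ⟩⟩
      apply h
      refine ⟨⟨(valid_iff _).2 ⟨n, X, h1⟩, (valid_iff _).2 ⟨m, Y, h2⟩⟩, ?_⟩
      rw [← h1, ← h2, length_adjMatrix, length_adjMatrix]
      have := Fintype.card_congr φ.toEquiv
      simpa using this

/-! ### Polynomial time -/

section

variable {α : Type} [TEnc α]

@[fun_prop]
theorem poly_ent {f : α → List (List Bool)} {g h : α → ℕ} (hf : Poly f)
    (hg : Poly g) (hh : Poly h) : Poly (fun a => ent (f a) (g a) (h a)) := by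
  unfold ent
  fun_prop

@[fun_prop]
theorem poly_okB {f : α → List (List Bool)} {g : α → Lb} (hf : Poly f)
    (hg : Poly g) : Poly (fun a => okB (f a) (g a)) := by
  unfold okB
  fun_prop

@[fun_prop]
theorem poly_range_len {f : α → List (List Bool)} (hf : Poly f) :
    Poly (fun a => List.range (f a).length) := Poly.range_length hf

@[fun_prop]
theorem poly_verts {f : α → List (List Bool)} (hf : Poly f) : Poly (fun a => verts (f a)) := by
  unfold verts
  fun_prop

@[fun_prop]
theorem poly_relB {a b : α → Lb} (ha : Poly a) (hb : Poly b) :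
    Poly (fun x => relB (a x) (b x)) := by
  unfold relB
  fun_prop

@[fun_prop]
theorem poly_adB {a b : α → Lb} (ha : Poly a) (hb : Poly b) :
    Poly (fun x => adB (a x) (b x)) := by
  unfold adB
  fun_prop

@[fun_prop]
theorem poly_out {f : α → List (List Bool)} (hf : Poly f) : Poly (fun a => out (f a)) := by
  unfold out
  fun_prop

@[fun_prop]
theorem poly_valid {f : α → List (List Bool)} (hf : Poly f) : Poly (fun a => valid (f a)) := by
  unfold valid
  fun_prop

end

theorem poly_red : Poly red := by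
  unfold red
  fun_prop

/-- The reduction on bit strings. -/
def redBits (x : List Bool) : List (List Bool) × List (List Bool) :=
  (unbits (List (List Bool) × List (List Bool)) x).elim ([[false]], [[false, true], [true, false]])
    red

theorem poly_redBits : Poly redBits := by
  unfold redBits
  exact NPC.Poly.optElim poly_unbits (NPC.Poly.const _) (poly_red.comp (NPC.Poly.snd NPC.Poly.id))

theorem redBits_spec (x : List Bool) :
    ∃ (N M : ℕ) (X' : SimpleGraph (Fin N)) (Y' : SimpleGraph (Fin M)),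
      redBits x = (adjMatrix X', adjMatrix Y') ∧ Geodetic X' ∧ Geodetic Y' ∧
        (x ∈ lang GraphIso ↔ Nonempty (X' ≃g Y')) := by
  unfold redBits
  rw [mem_lang_iff]
  cases h : unbits (List (List Bool) × List (List Bool)) x with
  | none =>
    refine ⟨1, 2, ⊤, ⊤, ?_, geodetic_top, geodetic_top, iff_of_false ?_ not_iso_small⟩
    · rw [mat_one, mat_two]
      rfl
    · rintro ⟨a, ha, _⟩
      exact absurd ha (by simp)
  | some p =>
    obtain ⟨N, M, X', Y', h1, h2, h3, h4⟩ := red_spec p
    refine ⟨N, M, X', Y', h1, h2, h3, ?_⟩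
    rw [← h4]
    constructor
    · rintro ⟨a, ha, h5⟩
      rw [Option.some.inj ha]
      exact h5
    · intro h5
      exact ⟨p, rfl, h5⟩

/-- The graph isomorphism problem reduces in polynomial time to the isomorphism problem of geodetic
graphs. -/
theorem main : ∃ f : List Bool → List Bool, PolyTime f ∧ ∀ x : List Bool,
    ∃ (N M : ℕ) (X' : SimpleGraph (Fin N)) (Y' : SimpleGraph (Fin M)),
      f x = bits (adjMatrix X', adjMatrix Y') ∧ Geodetic X' ∧ Geodetic Y' ∧
        (x ∈ lang GraphIso ↔ Nonempty (X' ≃g Y')) := by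
  refine ⟨fun x => bits (redBits x), polyTime_bits poly_redBits, fun x => ?_⟩
  obtain ⟨N, M, X', Y', h1, h2, h3, h4⟩ := redBits_spec x
  exact ⟨N, M, X', Y', congrArg bits h1, h2, h3, h4⟩

end Pool.Agent.T2H61.Geo
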